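import Mathlib

/-!
# The affine `L^p` energy and the reverse affine Zhang-Sobolev constant: definitions
-/

set_option autoImplicit false
open MeasureTheory Set Filter Topology Metric

namespace Q73.Za

/-- `ℝ^n`. -/
abbrev EN (n : ℕ) := EuclideanSpace ℝ (Fin n)

/-- `ω_k = π^(k/2) / Γ(1 + k/2)`. -/
noncomputable def omg (k : ℝ) : ℝ := Real.pi ^ (k / 2) / Real.Gamma (1 + k / 2)

/-- `c_{n,p} = (n ω_n ω_{p-1} / (2 ω_{n+p-2}))^(1/p) (n ω_n)^(1/n)`. -/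
noncomputable def cnp (n : ℕ) (p : ℝ) : ℝ :=
  ((n * omg n * omg (p - 1)) / (2 * omg (n + p - 2))) ^ (1 / p) * (n * omg n) ^ (1 / (n : ℝ))

/-- `‖g‖_p = (∫ |g|^p)^(1/p)`, for a scalar or vector valued function on `ℝ^n`. -/
noncomputable def lpn {n : ℕ} {F : Type} [Norm F] (p : ℝ) (g : EN n → F) : ℝ :=
  (∫ x, ‖g x‖ ^ p) ^ (1 / p)

/-- The affine `L^p` energy of a function with (weak) gradient `G`:
`c_{n,p} (∫_{S^{n-1}} ‖⟨G, ξ⟩‖_p^{-n} dξ)^{-1/n}`, `dξ` being the surface measure. -/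
noncomputable def energy {n : ℕ} (p : ℝ) (G : EN n → EN n) : ℝ :=
  cnp n p * (∫ ξ : sphere (0 : EN n) 1, lpn p (fun x => inner ℝ (G x) (ξ : EN n)) ^ (-(n : ℝ))
    ∂(volume : Measure (EN n)).toSphere) ^ (-(1 / (n : ℝ)))

/-- `f` is a `C¹` function on `ℝ^n` with support in `Ω`. -/
def Adm {n : ℕ} (Ω : Set (EN n)) (f : EN n → ℝ) : Prop := ContDiff ℝ 1 f ∧ tsupport f ⊆ Ω

/-- The ratio of the two sides of the inequality (without the constant), for a function `f` with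
(weak) gradient `G`: `energy / (‖f‖_p^((n-1)/n) ‖∇f‖_p^(1/n))`. -/
noncomputable def ratio {n : ℕ} (p : ℝ) (f : EN n → ℝ) (G : EN n → EN n) : ℝ :=
  energy p G / (lpn p f ^ (((n : ℝ) - 1) / n) * lpn p G ^ (1 / (n : ℝ)))

/-- `A_{n,p}(Ω)`: the infimum of the ratio over the `C¹` functions `f ≢ 0` with support in `Ω`. -/
noncomputable def aconst {n : ℕ} (p : ℝ) (Ω : Set (EN n)) : ℝ :=
  sInf {t : ℝ | ∃ f : EN n → ℝ, Adm Ω f ∧ f ≠ 0 ∧ t = ratio p f (gradient f)}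

/-- `f` belongs to the Sobolev space `W_0^{1,p}(Ω)`, the closure of the `C¹` functions with support
in `Ω`, and has the weak gradient `G`. -/
def W0 {n : ℕ} (p : ℝ) (Ω : Set (EN n)) (f : EN n → ℝ) (G : EN n → EN n) : Prop :=
  MemLp f (ENNReal.ofReal p) ∧ MemLp G (ENNReal.ofReal p) ∧
  ∃ F : ℕ → EN n → ℝ, (∀ k, Adm Ω (F k)) ∧
    Tendsto (fun k => eLpNorm (fun x => F k x - f x) (ENNReal.ofReal p) volume) atTop (𝓝 0) ∧
    Tendsto (fun k => eLpNorm (fun x => gradient (F k) x - G x) (ENNReal.ofReal p) volume)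
      atTop (𝓝 0)

/-- `f`, with weak gradient `G`, is an extremal function for `A_{n,p}(Ω)`: a nonzero element of
`W_0^{1,p}(Ω)` for which equality holds. -/
def Extremal {n : ℕ} (p : ℝ) (Ω : Set (EN n)) (f : EN n → ℝ) (G : EN n → EN n) : Prop :=
  W0 p Ω f G ∧ ¬ (f =ᵐ[volume] 0) ∧
    energy p G = aconst p Ω * (lpn p f ^ (((n : ℝ) - 1) / n) * lpn p G ^ (1 / (n : ℝ)))

end Q73.Za
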