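import Mathlib

/-!
# A Picone inequality along a direction, and its use on an ellipse

For a `C¹` function with compact support in the ellipse `(x₀/b)² + (x₁/a)² < 1` and an orthonormal
frame `v, w` the directional energies along `v` and `w` satisfy a product inequality.
-/

set_option autoImplicit false
open MeasureTheory Set Filter Topology

namespace Q73.Za

section picone
variable {E : Type*} [NormedAddCommGroup E] [NormedSpace ℝ E] [FiniteDimensional ℝ E]
  [MeasurableSpace E] [BorelSpace E] {μ : Measure E} [μ.IsAddHaarMeasure]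

omit [NormedSpace ℝ E] [FiniteDimensional ℝ E] in
lemma integrable_of_tsupport {g : E → ℝ} (hg : ∀ x ∈ tsupport g, ContinuousAt g x)
    (hc : HasCompactSupport g) : Integrable g μ :=
  (continuous_of_tsupport hg).integrable_of_hasCompactSupport hc

/-- Picone's inequality along the direction `v`. -/
lemma picone {f U W : E → ℝ} {Ω : Set E} (hΩ : IsOpen Ω) (hf : ContDiff ℝ 1 f)
    (hc : HasCompactSupport f) (hs : tsupport f ⊆ Ω) (v : E) (hU : ContDiffOn ℝ 1 U Ω)
    (hW : Continuous W) (heq : ∀ x ∈ Ω, fderiv ℝ U x v + U x ^ 2 = - W x) :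
    ∫ x, W x * f x ^ 2 ∂μ ≤ ∫ x, (fderiv ℝ f x v) ^ 2 ∂μ := by
  have hfd : Differentiable ℝ f := hf.differentiable one_ne_zero
  have hfc : Continuous f := hf.continuous
  have hf'c : Continuous (fun x => fderiv ℝ f x v) :=
    (hf.continuous_fderiv one_ne_zero).clm_apply continuous_const
  have hUc : ∀ x ∈ Ω, ContinuousAt U x := fun x hx => hU.continuousOn.continuousAt (hΩ.mem_nhds hx)
  have hUd : ∀ x ∈ Ω, DifferentiableAt ℝ U x := fun x hx =>
    (hU.differentiableOn one_ne_zero).differentiableAt (hΩ.mem_nhds hx)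
  have hU'c : ∀ x ∈ Ω, ContinuousAt (fun y => fderiv ℝ U y v) x := by
    intro x hx
    have h1 := (hU.continuousOn_fderiv_of_isOpen hΩ le_rfl).continuousAt (hΩ.mem_nhds hx)
    exact h1.clm_apply continuousAt_const
  -- supports
  have hs2 : tsupport (fun x => f x ^ 2) ⊆ tsupport f := by
    refine closure_mono ?_
    intro x hx
    simp only [Function.mem_support, ne_eq] at hx ⊢
    intro h
    exact hx (by rw [h]; ring)
  have hc2 : HasCompactSupport (fun x => f x ^ 2) := hc.mono (by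
    intro x hx
    simp only [Function.mem_support, ne_eq] at hx ⊢
    intro h
    exact hx (by rw [h]; ring))
  have hf2 : ContDiff ℝ 1 (fun x => f x ^ 2) := hf.pow 2
  have hf2' : ∀ x, fderiv ℝ (fun x => f x ^ 2) x v = 2 * f x * fderiv ℝ f x v := by
    intro x
    have h := (hfd x).hasFDerivAt.pow 2
    rw [h.fderiv]
    simp
    try ring
  have tsub : ∀ {g : E → ℝ} (h : E → ℝ), (∀ x, g x = h x * f x) → tsupport g ⊆ tsupport f := by
    intro g h hg
    refine closure_mono ?_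
    intro x hx
    simp only [Function.mem_support, ne_eq] at hx ⊢
    intro h0
    exact hx (by rw [hg, h0, mul_zero])
  have csub : ∀ {g : E → ℝ} (h : E → ℝ), (∀ x, g x = h x * f x) → HasCompactSupport g := by
    intro g h hg
    refine hc.mono ?_
    intro x hx
    simp only [Function.mem_support, ne_eq] at hx ⊢
    intro h0
    exact hx (by rw [hg, h0, mul_zero])
  have i1 : Integrable (fun x => fderiv ℝ U x v * f x ^ 2) μ := by
    refine integrable_of_tsupport ?_ (csub (fun x => fderiv ℝ U x v * f x) (fun x => by ring))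
    intro x hx
    have hxΩ := hs (tsub (fun x => fderiv ℝ U x v * f x) (fun x => by ring) hx)
    exact (hU'c x hxΩ).mul (hfc.pow 2).continuousAt
  have i2 : Integrable (fun x => U x * fderiv ℝ (fun x => f x ^ 2) x v) μ := by
    refine integrable_of_tsupport ?_ (csub (fun x => U x * (2 * fderiv ℝ f x v))
      (fun x => by rw [hf2']; ring))
    intro x hx
    have hxΩ := hs (tsub (fun x => U x * (2 * fderiv ℝ f x v)) (fun x => by rw [hf2']; ring) hx)
    refine (hUc x hxΩ).mul ?_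
    simp only [hf2']
    exact ((continuous_const.mul hfc).mul hf'c).continuousAt
  have i3 : Integrable (fun x => U x * f x ^ 2) μ := by
    refine integrable_of_tsupport ?_ (csub (fun x => U x * f x) (fun x => by ring))
    intro x hx
    have hxΩ := hs (tsub (fun x => U x * f x) (fun x => by ring) hx)
    exact (hUc x hxΩ).mul (hfc.pow 2).continuousAt
  have i4 : Integrable (fun x => W x * f x ^ 2) μ := by
    refine integrable_of_tsupport ?_ (csub (fun x => W x * f x) (fun x => by ring))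
    intro x hx
    exact (hW.mul (hfc.pow 2)).continuousAt
  have i5 : Integrable (fun x => (fderiv ℝ f x v) ^ 2) μ := by
    refine (hf'c.pow 2).integrable_of_hasCompactSupport ?_
    have h1 : HasCompactSupport (fun x => fderiv ℝ f x v) := hc.fderiv_apply (𝕜 := ℝ) v
    refine h1.mono ?_
    intro x hx
    simp only [Function.mem_support, ne_eq] at hx ⊢
    intro h0
    exact hx (by show (fderiv ℝ f x v) ^ 2 = 0; rw [h0]; ring)
  have i21 : Integrable (fun x => U x * fderiv ℝ (fun x => f x ^ 2) x v +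
      fderiv ℝ U x v * f x ^ 2) μ := i2.add i1
  have hparts := integral_mul_fderiv_eq_neg_fderiv_mul_of_integrable (μ := μ) (f := U)
    (g := fun x => f x ^ 2) (v := v) i1 i2 i3
    (fun x hx => hUd x (hs (hs2 hx))) (fun x _ => (hf2.differentiable one_ne_zero) x)
  have hpt : ∀ x, W x * f x ^ 2 ≤ (fderiv ℝ f x v) ^ 2 -
      (U x * fderiv ℝ (fun x => f x ^ 2) x v + fderiv ℝ U x v * f x ^ 2) := by
    intro x
    by_cases hx : x ∈ tsupport f
    · have h1 := heq x (hs hx)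
      have h2 : W x = -(fderiv ℝ U x v + U x ^ 2) := by linarith
      rw [hf2', h2]
      nlinarith [sq_nonneg (fderiv ℝ f x v - U x * f x)]
    · have h0 : f x = 0 := image_eq_zero_of_notMem_tsupport hx
      rw [hf2', h0]
      nlinarith [sq_nonneg (fderiv ℝ f x v)]
  calc ∫ x, W x * f x ^ 2 ∂μ ≤ ∫ x, ((fderiv ℝ f x v) ^ 2 -
      (U x * fderiv ℝ (fun x => f x ^ 2) x v + fderiv ℝ U x v * f x ^ 2)) ∂μ :=
        integral_mono i4 (i5.sub i21) hpt
    _ = ∫ x, (fderiv ℝ f x v) ^ 2 ∂μ := by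
        rw [integral_sub i5 i21, integral_add i2 i1, hparts]
        ring
end picone

/-- The plane. -/
abbrev E2 := EuclideanSpace ℝ (Fin 2)

/-- The ellipse with semi-axes `b` (first coordinate) and `a` (second coordinate). -/
def ell (a b : ℝ) : Set E2 := {x | (x 0 / b) ^ 2 + (x 1 / a) ^ 2 < 1}

lemma isOpen_ell (a b : ℝ) : IsOpen (ell a b) := by
  unfold ell
  exact isOpen_lt (by fun_prop) continuous_const

lemma ell_bdd {a b : ℝ} (ha : 0 < a) (hb : 0 < b) : Bornology.IsBounded (ell a b) := by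
  refine (Metric.isBounded_closedBall (x := (0 : E2)) (r := a + b)).subset ?_
  intro x hx
  have hx' : (x 0 / b) ^ 2 + (x 1 / a) ^ 2 < 1 := hx
  rw [mem_closedBall_zero_iff, EuclideanSpace.norm_eq, Fin.sum_univ_two]
  refine Real.sqrt_le_iff.2 ⟨by positivity, ?_⟩
  rw [Real.norm_eq_abs, Real.norm_eq_abs, sq_abs, sq_abs]
  have h1 : x 0 ^ 2 ≤ b ^ 2 := by
    have : (x 0 / b) ^ 2 ≤ 1 := by nlinarith [sq_nonneg (x 1 / a)]
    rw [div_pow, div_le_one (by positivity)] at this
    exact this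
  have h2 : x 1 ^ 2 ≤ a ^ 2 := by
    have : (x 1 / a) ^ 2 ≤ 1 := by nlinarith [sq_nonneg (x 0 / b)]
    rw [div_pow, div_le_one (by positivity)] at this
    exact this
  nlinarith

section ellipse
variable {a b p r : ℝ}

/-- coordinates in the frame -/
noncomputable def cs (p r : ℝ) (x : E2) : ℝ := -r * x 0 + p * x 1
noncomputable def ct (p r : ℝ) (x : E2) : ℝ := p * x 0 + r * x 1
noncomputable def qv (a b p r : ℝ) : ℝ := p ^ 2 / b ^ 2 + r ^ 2 / a ^ 2
noncomputable def pv (a b p r : ℝ) : ℝ := -p * r / b ^ 2 + p * r / a ^ 2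
noncomputable def tau (a b p r : ℝ) (x : E2) : ℝ := ct p r x + pv a b p r / qv a b p r * cs p r x
noncomputable def Wv (a b p r : ℝ) (x : E2) : ℝ :=
  Real.pi ^ 2 / 4 * (qv a b p r + cs p r x ^ 2 / (a ^ 2 * b ^ 2))
noncomputable def Uv (a b p r : ℝ) (x : E2) : ℝ :=
  -(√(Wv a b p r x) * Real.tan (√(Wv a b p r x) * tau a b p r x))

lemma qv_pos (ha : 0 < a) (hb : 0 < b) (hpr : p ^ 2 + r ^ 2 = 1) : 0 < qv a b p r := by
  unfold qv
  have h : p ≠ 0 ∨ r ≠ 0 := by
    by_contra h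
    push Not at h
    rw [h.1, h.2] at hpr
    norm_num at hpr
  rcases h with h | h
  · have : 0 < p ^ 2 / b ^ 2 := by positivity
    have : 0 ≤ r ^ 2 / a ^ 2 := by positivity
    linarith
  · have : 0 < r ^ 2 / a ^ 2 := by positivity
    have : 0 ≤ p ^ 2 / b ^ 2 := by positivity
    linarith

lemma Wv_pos (ha : 0 < a) (hb : 0 < b) (hpr : p ^ 2 + r ^ 2 = 1) (x : E2) : 0 < Wv a b p r x := by
  unfold Wv
  have := qv_pos ha hb hpr
  have := Real.pi_pos
  positivity

/-- completing the square -/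
lemma ell_key (ha : 0 < a) (hb : 0 < b) (hpr : p ^ 2 + r ^ 2 = 1) {x : E2} (hx : x ∈ ell a b) :
    qv a b p r * tau a b p r x ^ 2 + cs p r x ^ 2 / (a ^ 2 * b ^ 2 * qv a b p r) < 1 := by
  have hq := qv_pos ha hb hpr
  have hx' : (x 0 / b) ^ 2 + (x 1 / a) ^ 2 < 1 := hx
  refine lt_of_eq_of_lt ?_ hx'
  have e0 : x 0 = p * ct p r x - r * cs p r x := by
    unfold ct cs
    linear_combination (-x 0) * hpr
  have e1 : x 1 = r * ct p r x + p * cs p r x := by
    unfold ct cs
    linear_combination (-x 1) * hpr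
  rw [e0, e1]
  unfold tau
  set t := ct p r x
  set s := cs p r x
  have hdet : qv a b p r * (r ^ 2 / b ^ 2 + p ^ 2 / a ^ 2) - pv a b p r ^ 2 = 1 / (a ^ 2 * b ^ 2) := by
    unfold qv pv
    field_simp
    have : (p ^ 2 + r ^ 2) ^ 2 = 1 := by rw [hpr]; norm_num
    linear_combination (a ^ 2 * b ^ 2) * this
  have h1 : qv a b p r * (t + pv a b p r / qv a b p r * s) ^ 2 + s ^ 2 / (a ^ 2 * b ^ 2 * qv a b p r) =
      qv a b p r * t ^ 2 + 2 * pv a b p r * t * s +
        (pv a b p r ^ 2 + 1 / (a ^ 2 * b ^ 2)) / qv a b p r * s ^ 2 := by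
    field_simp
    ring
  rw [h1, ← hdet]
  have h2 : (pv a b p r ^ 2 + (qv a b p r * (r ^ 2 / b ^ 2 + p ^ 2 / a ^ 2) - pv a b p r ^ 2)) / qv a b p r
      = r ^ 2 / b ^ 2 + p ^ 2 / a ^ 2 := by
    field_simp
    ring
  rw [h2]
  unfold qv pv
  field_simp
  ring

lemma ell_angle (ha : 0 < a) (hb : 0 < b) (hpr : p ^ 2 + r ^ 2 = 1) {x : E2} (hx : x ∈ ell a b) :
    |√(Wv a b p r x) * tau a b p r x| < Real.pi / 2 := by
  have hq := qv_pos ha hb hpr
  have hW := Wv_pos ha hb hpr x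
  have hk := ell_key ha hb hpr hx
  have hpi := Real.pi_pos
  refine abs_lt_of_sq_lt_sq ?_ (by positivity)
  rw [mul_pow, Real.sq_sqrt hW.le]
  unfold Wv
  set s := cs p r x
  set τ := tau a b p r x
  set q := qv a b p r
  have hσ : 0 ≤ s ^ 2 / (a ^ 2 * b ^ 2 * q) := by positivity
  set σ := s ^ 2 / (a ^ 2 * b ^ 2 * q) with hσd
  have e : Real.pi ^ 2 / 4 * (q + s ^ 2 / (a ^ 2 * b ^ 2)) * τ ^ 2 =
      Real.pi ^ 2 / 4 * ((q * τ ^ 2) * (1 + σ)) := by
    rw [hσd]
    field_simp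
  rw [e]
  have h1 : (q * τ ^ 2) * (1 + σ) < 1 := by
    have : q * τ ^ 2 < 1 - σ := by linarith
    have : (q * τ ^ 2) * (1 + σ) < (1 - σ) * (1 + σ) :=
      mul_lt_mul_of_pos_right this (by linarith)
    nlinarith
  have : (Real.pi / 2) ^ 2 = Real.pi ^ 2 / 4 * 1 := by ring
  rw [this]
  exact mul_lt_mul_of_pos_left h1 (by positivity)

lemma ell_cos (ha : 0 < a) (hb : 0 < b) (hpr : p ^ 2 + r ^ 2 = 1) {x : E2} (hx : x ∈ ell a b) :
    Real.cos (√(Wv a b p r x) * tau a b p r x) ≠ 0 := by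
  have h := abs_lt.1 (ell_angle ha hb hpr hx)
  exact (Real.cos_pos_of_mem_Ioo ⟨by linarith [h.1], h.2⟩).ne'

/-- the unit vector -/
noncomputable def vv (p r : ℝ) : E2 := !₂[p, r]

lemma cs_add (x : E2) (h : ℝ) : cs p r (x + h • vv p r) = cs p r x := by
  unfold cs vv
  simp
  ring

lemma ct_add (hpr : p ^ 2 + r ^ 2 = 1) (x : E2) (h : ℝ) : ct p r (x + h • vv p r) = ct p r x + h := by
  unfold ct vv
  simp
  linear_combination h * hpr

lemma contDiff_cs : ContDiff ℝ 1 (cs p r) := by unfold cs; fun_prop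
lemma contDiff_ct : ContDiff ℝ 1 (ct p r) := by unfold ct; fun_prop

lemma contDiff_Wv : ContDiff ℝ 1 (Wv a b p r) := by
  unfold Wv
  exact contDiff_const.mul (contDiff_const.add ((contDiff_cs.pow 2).div_const _))

lemma contDiff_tau : ContDiff ℝ 1 (tau a b p r) := by
  unfold tau
  exact contDiff_ct.add (contDiff_const.mul contDiff_cs)

lemma contDiffOn_Uv (ha : 0 < a) (hb : 0 < b) (hpr : p ^ 2 + r ^ 2 = 1) :
    ContDiffOn ℝ 1 (Uv a b p r) (ell a b) := by
  intro x hx
  refine ContDiffAt.contDiffWithinAt ?_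
  have h1 : ContDiffAt ℝ 1 (fun x => √(Wv a b p r x)) x :=
    contDiff_Wv.contDiffAt.sqrt (Wv_pos ha hb hpr x).ne'
  have h2 : ContDiffAt ℝ 1 (fun x => Real.tan (√(Wv a b p r x) * tau a b p r x)) x := by
    have h3 := Real.contDiffAt_tan (n := 1) |>.2 (ell_cos ha hb hpr hx)
    exact ContDiffAt.comp (g := Real.tan) x h3 (h1.mul contDiff_tau.contDiffAt)
  exact (h1.mul h2).neg

lemma Uv_eq (ha : 0 < a) (hb : 0 < b) (hpr : p ^ 2 + r ^ 2 = 1) {x : E2} (hx : x ∈ ell a b) :
    fderiv ℝ (Uv a b p r) x (vv p r) + Uv a b p r x ^ 2 = - Wv a b p r x := by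
  have hd : DifferentiableAt ℝ (Uv a b p r) x :=
    ((contDiffOn_Uv ha hb hpr).differentiableOn one_ne_zero).differentiableAt
      ((isOpen_ell a b).mem_nhds hx)
  rw [← hd.lineDeriv_eq_fderiv]
  unfold lineDeriv
  have e : (fun t : ℝ => Uv a b p r (x + t • vv p r)) =
      fun t : ℝ => -(√(Wv a b p r x) * Real.tan (√(Wv a b p r x) * (tau a b p r x + t))) := by
    funext t
    unfold Uv Wv tau
    rw [cs_add, ct_add hpr]
    ring_nf
  rw [e]
  have hW := Wv_pos ha hb hpr x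
  set k := √(Wv a b p r x) with hk
  have hk2 : k ^ 2 = Wv a b p r x := Real.sq_sqrt hW.le
  have hcos := ell_cos ha hb hpr hx
  have h1 : HasDerivAt (fun t : ℝ => k * (tau a b p r x + t)) k 0 := by
    simpa using ((hasDerivAt_id (0 : ℝ)).const_add (tau a b p r x)).const_mul k
  have h2 : HasDerivAt (fun t : ℝ => -(k * Real.tan (k * (tau a b p r x + t))))
      (-(k * (1 / Real.cos (k * tau a b p r x) ^ 2 * k))) 0 := by
    have h3 : HasDerivAt Real.tan (1 / Real.cos (k * tau a b p r x) ^ 2)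
        (k * (tau a b p r x + 0)) := by
      rw [add_zero]
      exact Real.hasDerivAt_tan hcos
    exact ((h3.comp (0 : ℝ) h1).const_mul k).neg
  rw [h2.deriv]
  unfold Uv
  rw [← hk]
  have h3 : 1 / Real.cos (k * tau a b p r x) ^ 2 = 1 + Real.tan (k * tau a b p r x) ^ 2 := by
    have hc' : Real.cos (k * tau a b p r x) ≠ 0 := hcos
    rw [Real.tan_eq_sin_div_cos]
    field_simp
    rw [add_comm, Real.sin_sq_add_cos_sq]
  rw [h3, ← hk2]
  ring

/-- the first inequality: the energy along `v` controls the mass and the moment of the coordinate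
`s` -/
lemma energy_v (ha : 0 < a) (hb : 0 < b) (hpr : p ^ 2 + r ^ 2 = 1) {f : E2 → ℝ}
    (hf : ContDiff ℝ 1 f) (hc : HasCompactSupport f) (hs : tsupport f ⊆ ell a b) :
    ∫ x, Wv a b p r x * f x ^ 2 ≤ ∫ x, (fderiv ℝ f x (vv p r)) ^ 2 :=
  picone (isOpen_ell a b) hf hc hs (vv p r) (contDiffOn_Uv ha hb hpr) contDiff_Wv.continuous
    (fun _ hx => Uv_eq ha hb hpr hx)

/-- the uncertainty inequality along `w` -/
lemma energy_w (c : ℝ) (hpr : p ^ 2 + r ^ 2 = 1) {f : E2 → ℝ}
    (hf : ContDiff ℝ 1 f) (hc : HasCompactSupport f) :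
    ∫ x, (c - c ^ 2 * cs p r x ^ 2) * f x ^ 2 ≤ ∫ x, (fderiv ℝ f x (vv (-r) p)) ^ 2 := by
  have hU : ContDiff ℝ 1 (fun x : E2 => -(c * cs p r x)) := (contDiff_const.mul contDiff_cs).neg
  refine picone (Ω := univ) (U := fun x => -(c * cs p r x)) isOpen_univ hf hc (subset_univ _)
    (vv (-r) p) hU.contDiffOn
    ((contDiff_const.sub (contDiff_const.mul (contDiff_cs.pow 2))).continuous) ?_
  intro x _
  have hd : DifferentiableAt ℝ (fun x : E2 => -(c * cs p r x)) x := (hU.differentiable one_ne_zero) x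
  rw [← hd.lineDeriv_eq_fderiv]
  unfold lineDeriv
  have e : (fun t : ℝ => -(c * cs p r (x + t • vv (-r) p))) = fun t : ℝ => -(c * (cs p r x + t)) := by
    funext t
    unfold cs vv
    simp
    left
    linear_combination t * hpr
  rw [e]
  have h1 : HasDerivAt (fun t : ℝ => -(c * (cs p r x + t))) (-c) 0 := by
    have h0 : HasDerivAt (fun t : ℝ => c * (cs p r x + t)) c 0 := by
      simpa using ((hasDerivAt_id (0 : ℝ)).const_add (cs p r x)).const_mul c
    exact h0.neg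
  rw [h1.deriv]
  ring

/-- **The product inequality** for a `C¹` function with support in the ellipse. -/
lemma product_ineq (ha : 0 < a) (hb : 0 < b) (hab : b ≤ a) (hpr : p ^ 2 + r ^ 2 = 1) {f : E2 → ℝ}
    (hf : ContDiff ℝ 1 f) (hs : tsupport f ⊆ ell a b) :
    0 ≤ (∫ x, (fderiv ℝ f x (vv p r)) ^ 2) - Real.pi ^ 2 / (4 * a ^ 2) * ∫ x, f x ^ 2 ∧
    Real.pi ^ 2 / (16 * a ^ 2 * b ^ 2) * (∫ x, f x ^ 2) ^ 2 ≤
      ((∫ x, (fderiv ℝ f x (vv p r)) ^ 2) - Real.pi ^ 2 / (4 * a ^ 2) * ∫ x, f x ^ 2) *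
        ∫ x, (fderiv ℝ f x (vv (-r) p)) ^ 2 := by
  have hpi := Real.pi_pos
  have hc : HasCompactSupport f :=
    Metric.isCompact_of_isClosed_isBounded (isClosed_tsupport f) ((ell_bdd ha hb).subset hs)
  have hfc := hf.continuous
  have csub : ∀ {g : E2 → ℝ} (h : E2 → ℝ), (∀ x, g x = h x * f x) → HasCompactSupport g := by
    intro g h hg
    refine hc.mono ?_
    intro x hx
    simp only [Function.mem_support, ne_eq] at hx ⊢
    intro h0
    exact hx (by rw [hg, h0, mul_zero])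
  have i0 : Integrable (fun x : E2 => f x ^ 2) :=
    (hfc.pow 2).integrable_of_hasCompactSupport (csub f (fun x => sq (f x)))
  have i1 : Integrable (fun x : E2 => cs p r x ^ 2 * f x ^ 2) :=
    ((contDiff_cs.continuous.pow 2).mul (hfc.pow 2)).integrable_of_hasCompactSupport
      (csub (fun x => cs p r x ^ 2 * f x) (fun x => by
        show cs p r x ^ 2 * f x ^ 2 = _
        ring))
  set N := ∫ x, f x ^ 2 with hN
  set M := ∫ x, cs p r x ^ 2 * f x ^ 2 with hM
  set T1 := ∫ x, (fderiv ℝ f x (vv p r)) ^ 2 with hT1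
  set T2 := ∫ x, (fderiv ℝ f x (vv (-r) p)) ^ 2 with hT2
  have hN0 : 0 ≤ N := integral_nonneg fun x => sq_nonneg _
  have hM0 : 0 ≤ M := integral_nonneg fun x => by positivity
  have hq : 1 / a ^ 2 ≤ qv a b p r := by
    unfold qv
    have h1 : p ^ 2 / a ^ 2 ≤ p ^ 2 / b ^ 2 :=
      div_le_div_of_nonneg_left (sq_nonneg p) (by positivity) (pow_le_pow_left₀ hb.le hab 2)
    calc 1 / a ^ 2 = p ^ 2 / a ^ 2 + r ^ 2 / a ^ 2 := by rw [← add_div, hpr]
      _ ≤ _ := by linarith
  have h1 : Real.pi ^ 2 / 4 * (1 / a ^ 2 * N + M / (a ^ 2 * b ^ 2)) ≤ T1 := by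
    refine le_trans ?_ (energy_v ha hb hpr hf hc hs)
    have e : (fun x => Wv a b p r x * f x ^ 2) = fun x => Real.pi ^ 2 / 4 * qv a b p r * f x ^ 2 +
        Real.pi ^ 2 / 4 / (a ^ 2 * b ^ 2) * (cs p r x ^ 2 * f x ^ 2) := by
      funext x
      unfold Wv
      ring
    rw [e, integral_add (i0.const_mul _) (i1.const_mul _), integral_const_mul, integral_const_mul,
      ← hN, ← hM]
    have : 1 / a ^ 2 * N ≤ qv a b p r * N := mul_le_mul_of_nonneg_right hq hN0
    calc Real.pi ^ 2 / 4 * (1 / a ^ 2 * N + M / (a ^ 2 * b ^ 2))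
        ≤ Real.pi ^ 2 / 4 * (qv a b p r * N + M / (a ^ 2 * b ^ 2)) := by
          apply mul_le_mul_of_nonneg_left _ (by positivity)
          linarith
      _ = _ := by ring
  have h2 : ∀ c : ℝ, c * N - c ^ 2 * M ≤ T2 := by
    intro c
    refine le_trans (le_of_eq ?_) (energy_w c hpr hf hc)
    have e : (fun x => (c - c ^ 2 * cs p r x ^ 2) * f x ^ 2) = fun x => c * f x ^ 2 -
        c ^ 2 * (cs p r x ^ 2 * f x ^ 2) := by
      funext x
      ring
    rw [e, integral_sub (i0.const_mul _) (i1.const_mul _), integral_const_mul, integral_const_mul]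
  set R := T1 - Real.pi ^ 2 / (4 * a ^ 2) * N with hR
  have h3 : M ≤ 4 * a ^ 2 * b ^ 2 / Real.pi ^ 2 * R := by
    have e1 : Real.pi ^ 2 / 4 * (1 / a ^ 2 * N + M / (a ^ 2 * b ^ 2)) =
        Real.pi ^ 2 / (4 * a ^ 2) * N + Real.pi ^ 2 / (4 * a ^ 2 * b ^ 2) * M := by
      field_simp
    have e2 : Real.pi ^ 2 / (4 * a ^ 2 * b ^ 2) * M ≤ R := by rw [hR]; linarith
    calc M = 4 * a ^ 2 * b ^ 2 / Real.pi ^ 2 * (Real.pi ^ 2 / (4 * a ^ 2 * b ^ 2) * M) := by
          field_simp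
      _ ≤ _ := mul_le_mul_of_nonneg_left e2 (by positivity)
  have hR0 : 0 ≤ R := by
    by_contra hneg
    push Not at hneg
    have : 4 * a ^ 2 * b ^ 2 / Real.pi ^ 2 * R < 0 := mul_neg_of_pos_of_neg (by positivity) hneg
    linarith
  refine ⟨hR0, ?_⟩
  have h4 : ∀ c : ℝ, 0 ≤ (4 * a ^ 2 * b ^ 2 / Real.pi ^ 2 * R) * (c * c) + (-N) * c + T2 := by
    intro c
    have h5 := h2 c
    have h6 : c ^ 2 * M ≤ c ^ 2 * (4 * a ^ 2 * b ^ 2 / Real.pi ^ 2 * R) :=
      mul_le_mul_of_nonneg_left h3 (sq_nonneg c)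
    nlinarith
  have h5 := discrim_le_zero h4
  unfold discrim at h5
  have h6 : N ^ 2 ≤ 16 * a ^ 2 * b ^ 2 / Real.pi ^ 2 * (R * T2) := by
    have e : 4 * (4 * a ^ 2 * b ^ 2 / Real.pi ^ 2 * R) * T2 =
        16 * a ^ 2 * b ^ 2 / Real.pi ^ 2 * (R * T2) := by ring
    nlinarith
  calc Real.pi ^ 2 / (16 * a ^ 2 * b ^ 2) * N ^ 2
      ≤ Real.pi ^ 2 / (16 * a ^ 2 * b ^ 2) * (16 * a ^ 2 * b ^ 2 / Real.pi ^ 2 * (R * T2)) :=
        mul_le_mul_of_nonneg_left h6 (by positivity)
    _ = R * T2 := by field_simp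

end ellipse

end Q73.Za
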