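import Mathlib
import Pool.Agent.H624R3.AQ.Polar
import Pool.Agent.Q73.Za.Key

/-!
# The integral of the reciprocal of a quadratic form over the unit circle
-/

set_option autoImplicit false
open MeasureTheory Set Filter Topology Metric

namespace Q73.Za

/-- a positive definite quadratic form in the plane -/
noncomputable def qf (X Y Z : ℝ) (x : E2) : ℝ := X * x 0 ^ 2 + 2 * Z * (x 0 * x 1) + Y * x 1 ^ 2

lemma qf_pos {X Y Z : ℝ} (hX : 0 < X) (hD : 0 < X * Y - Z ^ 2) {x : E2} (hx : x ≠ 0) :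
    0 < qf X Y Z x := by
  unfold qf
  have e : X * (X * x 0 ^ 2 + 2 * Z * (x 0 * x 1) + Y * x 1 ^ 2) =
      (X * x 0 + Z * x 1) ^ 2 + (X * Y - Z ^ 2) * x 1 ^ 2 := by ring
  have h : 0 < X * (X * x 0 ^ 2 + 2 * Z * (x 0 * x 1) + Y * x 1 ^ 2) := by
    rw [e]
    by_cases h1 : x 1 = 0
    · have h0 : x 0 ≠ 0 := by
        intro h0
        apply hx
        ext i
        fin_cases i
        · exact h0
        · exact h1
      rw [h1]
      have : 0 < (X * x 0 + Z * 0) ^ 2 := by
        rw [mul_zero, add_zero]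
        positivity
      linarith
    · have : 0 < (X * Y - Z ^ 2) * x 1 ^ 2 := by positivity
      nlinarith [sq_nonneg (X * x 0 + Z * x 1)]
  exact (mul_pos_iff_of_pos_left hX).1 h

lemma qf_smul (X Y Z r : ℝ) (x : E2) : qf X Y Z (r • x) = r ^ 2 * qf X Y Z x := by
  unfold qf
  simp
  ring

lemma continuous_qf (X Y Z : ℝ) : Continuous (qf X Y Z) := by
  unfold qf
  fun_prop

/-- the area of the ellipse -/
lemma volume_qf {X Y Z : ℝ} (hX : 0 < X) (hD : 0 < X * Y - Z ^ 2) :
    volume {x : E2 | qf X Y Z x < 1} = ENNReal.ofReal (Real.pi / √(X * Y - Z ^ 2)) := by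
  set D := X * Y - Z ^ 2 with hDd
  set M : Matrix (Fin 2) (Fin 2) ℝ := !![√X, Z / √X; 0, √(D / X)] with hM
  have hsX : 0 < √X := Real.sqrt_pos.2 hX
  have hsD : 0 < √(D / X) := Real.sqrt_pos.2 (by positivity)
  set L : E2 →ₗ[ℝ] E2 := Matrix.toEuclideanLin M with hL
  have hdet : LinearMap.det L = √D := by
    rw [hL, Matrix.toEuclideanLin_eq_toLin_orthonormal, LinearMap.det_toLin, hM,
      Matrix.det_fin_two_of, mul_zero, sub_zero, ← Real.sqrt_mul hX.le]
    congr 1
    field_simp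
  have hdet0 : LinearMap.det L ≠ 0 := by
    rw [hdet]
    exact (Real.sqrt_pos.2 hD).ne'
  have hset : {x : E2 | qf X Y Z x < 1} = L ⁻¹' ball 0 1 := by
    ext x
    have h0 : (L x) 0 = √X * x 0 + Z / √X * x 1 := by
      rw [hL, Matrix.toLpLin_apply, hM]
      simp [Matrix.mulVec, dotProduct, Fin.sum_univ_two]
    have h1 : (L x) 1 = √(D / X) * x 1 := by
      rw [hL, Matrix.toLpLin_apply, hM]
      simp [Matrix.mulVec, dotProduct, Fin.sum_univ_two]
    have hn : ‖L x‖ ^ 2 = qf X Y Z x := by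
      rw [EuclideanSpace.norm_eq, Real.sq_sqrt (Finset.sum_nonneg fun i _ => by positivity),
        Fin.sum_univ_two, Real.norm_eq_abs, Real.norm_eq_abs, sq_abs, sq_abs, h0, h1]
      unfold qf
      have e1 : √X ^ 2 = X := Real.sq_sqrt hX.le
      have e2 : √(D / X) ^ 2 = D / X := Real.sq_sqrt (by positivity)
      have e3 : (√X * x 0 + Z / √X * x 1) ^ 2 + (√(D / X) * x 1) ^ 2 =
          √X ^ 2 * x 0 ^ 2 + 2 * Z * (x 0 * x 1) + (Z ^ 2 / √X ^ 2 + √(D / X) ^ 2) * x 1 ^ 2 := by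
        field_simp
        ring
      rw [e3, e1, e2, hDd]
      field_simp
      ring
    have hmem : x ∈ {x : E2 | qf X Y Z x < 1} ↔ qf X Y Z x < 1 := Iff.rfl
    rw [hmem, mem_preimage, mem_ball_zero_iff, ← hn]
    constructor
    · intro h
      nlinarith [norm_nonneg (L x)]
    · intro h
      nlinarith [norm_nonneg (L x)]
  rw [hset, Measure.addHaar_preimage_linearMap _ hdet0, EuclideanSpace.volume_ball_fin_two, hdet,
    abs_of_pos (inv_pos.2 (Real.sqrt_pos.2 hD)), ENNReal.ofReal_one, one_pow, one_mul]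
  rw [div_eq_inv_mul, ENNReal.ofReal_mul (inv_nonneg.2 (Real.sqrt_nonneg _))]

/-- the integral of `1/q` over the circle -/
lemma sphere_qf {X Y Z : ℝ} (hX : 0 < X) (hD : 0 < X * Y - Z ^ 2) :
    ∫ ξ : sphere (0 : E2) 1, (qf X Y Z ξ)⁻¹ ∂(volume : Measure E2).toSphere =
      2 * Real.pi / √(X * Y - Z ^ 2) := by
  have hms : MeasurableSet {x : E2 | qf X Y Z x < 1} :=
    measurableSet_lt (continuous_qf X Y Z).measurable measurable_const
  have hfr : Module.finrank ℝ E2 = 2 := by simp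
  have h1 := Pool.Agent.H624R3.AQ.polar (volume : Measure E2)
    ({x : E2 | qf X Y Z x < 1}.indicator 1) (measurable_one.indicator hms)
  rw [lintegral_indicator_one hms, volume_qf hX hD, hfr] at h1
  have hpos : ∀ θ : sphere (0 : E2) 1, 0 < qf X Y Z θ.1 := by
    intro θ
    apply qf_pos hX hD
    intro h
    have := θ.2
    rw [mem_sphere_zero_iff_norm, h, norm_zero] at this
    norm_num at this
  have h2 : ∀ θ : sphere (0 : E2) 1, ∫⁻ r : Ioi (0 : ℝ),
      {x : E2 | qf X Y Z x < 1}.indicator (1 : E2 → ENNReal) (r.1 • θ.1)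
        ∂(Measure.volumeIoiPow (2 - 1)) = ENNReal.ofReal ((qf X Y Z θ.1)⁻¹ / 2) := by
    intro θ
    have hq := hpos θ
    have hr0 : 0 < 1 / √(qf X Y Z θ.1) := by
      have := Real.sqrt_pos.2 hq
      positivity
    have e : (fun r : Ioi (0 : ℝ) => {x : E2 | qf X Y Z x < 1}.indicator (1 : E2 → ENNReal)
        (r.1 • θ.1)) = (Iio (⟨1 / √(qf X Y Z θ.1), hr0⟩ : Ioi (0 : ℝ))).indicator 1 := by
      funext r
      have hr : 0 < r.1 := r.2
      have hiff : r.1 • θ.1 ∈ {x : E2 | qf X Y Z x < 1} ↔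
          r ∈ Iio (⟨1 / √(qf X Y Z θ.1), hr0⟩ : Ioi (0 : ℝ)) := by
        show qf X Y Z (r.1 • θ.1) < 1 ↔ r.1 < 1 / √(qf X Y Z θ.1)
        rw [qf_smul, lt_div_iff₀ (Real.sqrt_pos.2 hq)]
        have h3 : r.1 ^ 2 * qf X Y Z θ.1 = (r.1 * √(qf X Y Z θ.1)) ^ 2 := by
          rw [mul_pow, Real.sq_sqrt hq.le]
        rw [h3]
        have h4 : 0 ≤ r.1 * √(qf X Y Z θ.1) := by positivity
        constructor
        · intro h
          nlinarith
        · intro h
          nlinarith
      by_cases hx : r.1 • θ.1 ∈ {x : E2 | qf X Y Z x < 1}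
      · rw [indicator_of_mem hx, indicator_of_mem (hiff.1 hx)]
        rfl
      · rw [indicator_of_notMem hx, indicator_of_notMem (fun h => hx (hiff.2 h))]
    rw [e, lintegral_indicator_one measurableSet_Iio, Measure.volumeIoiPow_apply_Iio]
    congr 1
    simp only
    rw [div_pow, Real.sq_sqrt hq.le]
    norm_num
    try ring
  rw [lintegral_congr h2] at h1
  have hc : Continuous fun θ : sphere (0 : E2) 1 => (qf X Y Z θ.1)⁻¹ :=
    ((continuous_qf X Y Z).comp continuous_subtype_val).inv₀ (fun θ => (hpos θ).ne')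
  have h3 : ∫ ξ : sphere (0 : E2) 1, (qf X Y Z ξ)⁻¹ / 2 ∂(volume : Measure E2).toSphere =
      Real.pi / √(X * Y - Z ^ 2) := by
    rw [integral_eq_lintegral_of_nonneg_ae
      (Eventually.of_forall fun θ => by
        have := hpos θ
        positivity)
      (hc.div_const 2).aestronglyMeasurable, ← h1, ENNReal.toReal_ofReal (by positivity)]
  rw [integral_div] at h3
  have h4 := (div_eq_iff (two_ne_zero)).1 h3
  rw [h4]
  ring

end Q73.Za
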