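import Mathlib
import Pool.Agent.Q73.Za.Sph
import Pool.Agent.Q73.Za.Defs

/-!
# The energy in the plane for `p = 2`, and the strict inequality for Sobolev functions
-/

set_option autoImplicit false
open MeasureTheory Set Filter Topology Metric

namespace Q73.Za

lemma sq_integral {g : E2 → ℝ} (hg : MemLp g 2) :
    (eLpNorm g 2 volume).toReal ^ 2 = ∫ x, g x ^ 2 := by
  rw [hg.eLpNorm_eq_integral_rpow_norm (by norm_num) (by norm_num)]
  have h0 : 0 ≤ ∫ x, g x ^ 2 := integral_nonneg fun x => sq_nonneg _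
  have e : (fun x => ‖g x‖ ^ (2 : ENNReal).toReal) = fun x => g x ^ 2 := by
    funext x
    rw [ENNReal.toReal_ofNat, Real.rpow_two, Real.norm_eq_abs, sq_abs]
  rw [e, ENNReal.toReal_ofReal (by positivity), ENNReal.toReal_ofNat, ← Real.rpow_natCast,
    ← Real.rpow_mul h0]
  norm_num

lemma tendsto_sq {g : ℕ → E2 → ℝ} {h : E2 → ℝ} (hg : ∀ k, MemLp (g k) 2) (hh : MemLp h 2)
    (ht : Tendsto (fun k => eLpNorm (fun x => g k x - h x) 2 volume) atTop (𝓝 0)) :
    Tendsto (fun k => ∫ x, g k x ^ 2) atTop (𝓝 (∫ x, h x ^ 2)) := by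
  have h1 : Tendsto (fun k => (eLpNorm (g k) 2 volume).toReal) atTop
      (𝓝 (eLpNorm h 2 volume).toReal) := by
    rw [tendsto_iff_dist_tendsto_zero]
    have h2 : Tendsto (fun k => (eLpNorm (fun x => g k x - h x) 2 volume).toReal) atTop (𝓝 0) := by
      have := (ENNReal.tendsto_toReal (a := 0) (by simp)).comp ht
      rw [ENNReal.toReal_zero] at this
      exact this
    refine squeeze_zero (fun k => dist_nonneg) (fun k => ?_) h2
    rw [Real.dist_eq, abs_le]
    have hsub : MemLp (fun x => g k x - h x) 2 := (hg k).sub hh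
    constructor
    · have h3 : eLpNorm h 2 volume ≤ eLpNorm (g k) 2 volume +
          eLpNorm (fun x => g k x - h x) 2 volume := by
        have e : h = fun x => g k x - (g k x - h x) := by
          funext x; ring
        calc eLpNorm h 2 volume = eLpNorm (fun x => g k x - (g k x - h x)) 2 volume := by rw [← e]
          _ ≤ _ := eLpNorm_sub_le (hg k).1 hsub.1 (by norm_num)
      have h4 := ENNReal.toReal_mono (ENNReal.add_ne_top.2 ⟨(hg k).2.ne, hsub.2.ne⟩) h3
      rw [ENNReal.toReal_add (hg k).2.ne hsub.2.ne] at h4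
      linarith
    · have h3 : eLpNorm (g k) 2 volume ≤ eLpNorm (fun x => g k x - h x) 2 volume +
          eLpNorm h 2 volume := by
        have e : g k = fun x => (g k x - h x) + h x := by
          funext x; ring
        calc eLpNorm (g k) 2 volume = eLpNorm (fun x => (g k x - h x) + h x) 2 volume := by rw [← e]
          _ ≤ _ := eLpNorm_add_le hsub.1 hh.1 (by norm_num)
      have h4 := ENNReal.toReal_mono (ENNReal.add_ne_top.2 ⟨hsub.2.ne, hh.2.ne⟩) h3
      rw [ENNReal.toReal_add hsub.2.ne hh.2.ne] at h4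
      linarith
  have h5 := h1.pow 2
  rw [sq_integral hh] at h5
  refine h5.congr fun k => ?_
  exact sq_integral (hg k)

lemma inner_vv (p r : ℝ) (y : E2) : inner ℝ y (vv p r) = p * y 0 + r * y 1 := by
  unfold vv
  rw [PiLp.inner_apply, Fin.sum_univ_two]
  simp

lemma inner_grad {f : E2 → ℝ} (x v : E2) : inner ℝ (gradient f x) v = fderiv ℝ f x v := by
  unfold gradient
  exact InnerProductSpace.toDual_symm_apply

lemma grad_cont {f : E2 → ℝ} (hf : ContDiff ℝ 1 f) : Continuous (gradient f) := by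
  unfold gradient
  exact (LinearIsometryEquiv.continuous _).comp (hf.continuous_fderiv one_ne_zero)

lemma grad_supp {f : E2 → ℝ} (hc : HasCompactSupport f) : HasCompactSupport (gradient f) := by
  have h := hc.fderiv (𝕜 := ℝ)
  refine h.mono ?_
  intro x hx
  simp only [Function.mem_support, ne_eq] at hx ⊢
  intro h0
  apply hx
  unfold gradient
  rw [h0, map_zero]

lemma adm_compact {a b : ℝ} (ha : 0 < a) (hb : 0 < b) {f : E2 → ℝ} (h : Adm (ell a b) f) :
    HasCompactSupport f :=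
  Metric.isCompact_of_isClosed_isBounded (isClosed_tsupport f) ((ell_bdd ha hb).subset h.2)

lemma adm_W0 {a b : ℝ} (ha : 0 < a) (hb : 0 < b) {f : E2 → ℝ} (h : Adm (ell a b) f) :
    W0 2 (ell a b) f (gradient f) := by
  have hc := adm_compact ha hb h
  refine ⟨h.1.continuous.memLp_of_hasCompactSupport hc,
    (grad_cont h.1).memLp_of_hasCompactSupport (grad_supp hc), fun _ => f, fun _ => h, ?_, ?_⟩
  · simp only [sub_self]
    have : (fun _ : E2 => (0 : ℝ)) = 0 := rfl
    simp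
  · simp only [sub_self]
    simp

/-- the directional energies of a Sobolev function satisfy the product inequality -/
lemma W0_product {a b p r : ℝ} (ha : 0 < a) (hb : 0 < b) (hab : b ≤ a) (hpr : p ^ 2 + r ^ 2 = 1)
    {f : E2 → ℝ} {G : E2 → E2} (h : W0 2 (ell a b) f G) :
    0 ≤ (∫ x, (p * G x 0 + r * G x 1) ^ 2) - Real.pi ^ 2 / (4 * a ^ 2) * ∫ x, f x ^ 2 ∧
    Real.pi ^ 2 / (16 * a ^ 2 * b ^ 2) * (∫ x, f x ^ 2) ^ 2 ≤
      ((∫ x, (p * G x 0 + r * G x 1) ^ 2) - Real.pi ^ 2 / (4 * a ^ 2) * ∫ x, f x ^ 2) *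
        ∫ x, (-r * G x 0 + p * G x 1) ^ 2 := by
  obtain ⟨hf, hG, F, hF, t1, t2⟩ := h
  have e2 : ENNReal.ofReal 2 = 2 := by norm_num
  rw [e2] at hf hG t1 t2
  have hcF : ∀ k, HasCompactSupport (F k) := fun k => adm_compact ha hb (hF k)
  have hmF : ∀ k, MemLp (F k) 2 := fun k =>
    (hF k).1.continuous.memLp_of_hasCompactSupport (hcF k)
  have hmG : ∀ k, MemLp (gradient (F k)) 2 := fun k =>
    (grad_cont (hF k).1).memLp_of_hasCompactSupport (grad_supp (hcF k))
  have a1 := tendsto_sq hmF hf t1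
  have a2 : ∀ v : E2, ‖v‖ = 1 → Tendsto (fun k => ∫ x, (fderiv ℝ (F k) x v) ^ 2) atTop
      (𝓝 (∫ x, (inner ℝ (G x) v : ℝ) ^ 2)) := by
    intro v hv
    have h1 : ∀ k, MemLp (fun x => inner ℝ (gradient (F k) x) v) 2 := fun k =>
      (hmG k).inner_const v
    have h2 : MemLp (fun x => inner ℝ (G x) v) 2 := hG.inner_const v
    have h3 := tendsto_sq (g := fun k x => inner ℝ (gradient (F k) x) v)
      (h := fun x => inner ℝ (G x) v) h1 h2 (by
        refine tendsto_of_tendsto_of_tendsto_of_le_of_le tendsto_const_nhds t2 (fun k => zero_le)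
          (fun k => ?_)
        refine eLpNorm_mono fun x => ?_
        rw [← inner_sub_left, Real.norm_eq_abs]
        refine (abs_real_inner_le_norm _ _).trans ?_
        rw [hv, mul_one])
    refine h3.congr fun k => ?_
    simp only [inner_grad]
  have hn1 : ‖vv p r‖ = 1 := by
    unfold vv
    rw [EuclideanSpace.norm_eq, Fin.sum_univ_two]
    simp [hpr]
  have hn2 : ‖vv (-r) p‖ = 1 := by
    unfold vv
    rw [EuclideanSpace.norm_eq, Fin.sum_univ_two]
    simp only [Real.norm_eq_abs, sq_abs]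
    simp only [Matrix.cons_val_zero, Matrix.cons_val_one]
    rw [show (-r) ^ 2 + p ^ 2 = 1 by rw [← hpr]; ring, Real.sqrt_one]
  have b1 := a2 _ hn1
  have b2 := a2 _ hn2
  simp only [inner_vv] at b1 b2
  have key := fun k => product_ineq ha hb hab hpr (hF k).1 (hF k).2
  refine ⟨ge_of_tendsto' (b1.sub (a1.const_mul _)) (fun k => (key k).1), ?_⟩
  exact le_of_tendsto_of_tendsto' ((a1.pow 2).const_mul _)
    ((b1.sub (a1.const_mul _)).mul b2) (fun k => (key k).2)

/-- a rotation that kills the mixed term -/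
lemma exists_frame (X Y Z : ℝ) : ∃ p r : ℝ, p ^ 2 + r ^ 2 = 1 ∧
    -(p * r) * X + (p ^ 2 - r ^ 2) * Z + p * r * Y = 0 := by
  set z : ℂ := ⟨X - Y, 2 * Z⟩ with hz
  set φ := z.arg / 2 with hφ
  refine ⟨Real.cos φ, Real.sin φ, Real.cos_sq_add_sin_sq φ, ?_⟩
  have h1 : ‖z‖ * Real.cos (2 * φ) = X - Y := by
    rw [hφ, mul_div_cancel₀ _ (two_ne_zero), Complex.norm_mul_cos_arg]
  have h2 : ‖z‖ * Real.sin (2 * φ) = 2 * Z := by
    rw [hφ, mul_div_cancel₀ _ (two_ne_zero), Complex.norm_mul_sin_arg]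
  have h3 : Real.sin (2 * φ) * (X - Y) = Real.cos (2 * φ) * (2 * Z) := by
    rw [← h1, ← h2]; ring
  rw [Real.sin_two_mul, Real.cos_two_mul'] at h3
  linear_combination (-1 / 2) * h3

/-- the strict inequality from the product inequalities -/
lemma algebra_strict {m K N T1 T2 : ℝ} (hN : 0 < N) (hm : 0 < m) (hK : 2 * m ^ 2 < K)
    (h1 : 0 ≤ T1 - m * N) (h2 : 0 ≤ T2 - m * N) (h3 : K * N ^ 2 ≤ (T1 - m * N) * T2)
    (h4 : K * N ^ 2 ≤ (T2 - m * N) * T1) : m * N * (T1 + T2) < T1 * T2 := by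
  wlog h : T1 ≤ T2 generalizing T1 T2 with H
  · have := H h2 h1 h4 h3 (le_of_lt (not_le.1 h))
    linarith
  have hmN : 0 < m * N := mul_pos hm hN
  by_cases hc : T1 ≤ 2 * (m * N)
  · have h5 : m * N * T1 ≤ 2 * m ^ 2 * N ^ 2 := by nlinarith
    have h6 : 2 * m ^ 2 * N ^ 2 < K * N ^ 2 := mul_lt_mul_of_pos_right hK (by positivity)
    nlinarith
  · push Not at hc
    have h5 : m * N < T1 - m * N := by linarith
    have h6 : m * N < T2 - m * N := by linarith
    nlinarith [mul_pos (sub_pos.2 h5) (sub_pos.2 h6)]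

/-- the entries of the gradient matrix -/
noncomputable def gX (G : E2 → E2) : ℝ := ∫ x, G x 0 ^ 2
noncomputable def gY (G : E2 → E2) : ℝ := ∫ x, G x 1 ^ 2
noncomputable def gZ (G : E2 → E2) : ℝ := ∫ x, G x 0 * G x 1

lemma memLp_coord {G : E2 → E2} (hG : MemLp G 2) (i : Fin 2) : MemLp (fun x => G x i) 2 := by
  have h : MemLp (fun x => inner ℝ (G x) (EuclideanSpace.single i (1 : ℝ))) 2 := hG.inner_const _
  refine h.congr_norm ?_ ?_
  · exact (continuous_apply i).comp_aestronglyMeasurable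
      ((PiLp.continuous_ofLp 2 _).comp_aestronglyMeasurable hG.1)
  · refine Eventually.of_forall fun x => ?_
    show ‖inner ℝ (G x) (EuclideanSpace.single i (1 : ℝ))‖ = ‖G x i‖
    rw [EuclideanSpace.inner_single_right]
    simp

lemma quad_integral {G : E2 → E2} (hG : MemLp G 2) (p r : ℝ) :
    ∫ x, (p * G x 0 + r * G x 1) ^ 2 = p ^ 2 * gX G + 2 * (p * r) * gZ G + r ^ 2 * gY G := by
  have h0 := memLp_coord hG 0
  have h1 := memLp_coord hG 1
  have i0 : Integrable (fun x => G x 0 ^ 2) := h0.integrable_sq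
  have i1 : Integrable (fun x => G x 1 ^ 2) := h1.integrable_sq
  have i2 : Integrable (fun x => G x 0 * G x 1) := h0.integrable_mul h1
  have e : (fun x => (p * G x 0 + r * G x 1) ^ 2) = fun x => p ^ 2 * G x 0 ^ 2 +
      (2 * (p * r) * (G x 0 * G x 1) + r ^ 2 * G x 1 ^ 2) := by
    funext x; ring
  have i3 : Integrable (fun x => 2 * (p * r) * (G x 0 * G x 1) + r ^ 2 * G x 1 ^ 2) :=
    (i2.const_mul _).add (i1.const_mul _)
  rw [e, integral_add (i0.const_mul _) i3, integral_add (i2.const_mul _) (i1.const_mul _),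
    integral_const_mul, integral_const_mul, integral_const_mul]
  unfold gX gY gZ
  ring

/-- **The strict inequality.** -/
lemma strict {a b : ℝ} (ha : 0 < a) (hb : 0 < b) (hab : b ≤ a / 5) {f : E2 → ℝ} {G : E2 → E2}
    (h : W0 2 (ell a b) f G) (hf0 : ¬ (f =ᵐ[volume] 0)) :
    0 < ∫ x, f x ^ 2 ∧ 0 < gX G ∧
    Real.pi ^ 2 / (4 * a ^ 2) * (∫ x, f x ^ 2) * (gX G + gY G) < gX G * gY G - gZ G ^ 2 := by
  have e2 : ENNReal.ofReal 2 = 2 := by norm_num
  have hf : MemLp f 2 := by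
    have := h.1
    rwa [e2] at this
  have hG : MemLp G 2 := by
    have := h.2.1
    rwa [e2] at this
  have hpi := Real.pi_pos
  have hN : 0 < ∫ x, f x ^ 2 := by
    rw [integral_pos_iff_support_of_nonneg (fun x => sq_nonneg _) hf.integrable_sq]
    rw [pos_iff_ne_zero]
    intro h0
    apply hf0
    rw [Filter.EventuallyEq, ae_iff]
    convert h0 using 2
    ext x
    simp [Function.mem_support]
  set N := ∫ x, f x ^ 2 with hNd
  obtain ⟨p, r, hpr, hcross⟩ := exists_frame (gX G) (gY G) (gZ G)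
  have hba : b ≤ a := by linarith
  have k1 := W0_product ha hb hba hpr h
  have hpr' : (-r) ^ 2 + p ^ 2 = 1 := by rw [← hpr]; ring
  have k2 := W0_product ha hb hba hpr' h
  rw [← hNd, quad_integral hG, quad_integral hG] at k1 k2
  set X := gX G
  set Y := gY G
  set Z := gZ G
  set T1 := p ^ 2 * X + 2 * (p * r) * Z + r ^ 2 * Y with hT1
  set T2 := r ^ 2 * X - 2 * (p * r) * Z + p ^ 2 * Y with hT2
  have e1 : (-r) ^ 2 * X + 2 * (-r * p) * Z + p ^ 2 * Y = T2 := by rw [hT2]; ring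
  have e3 : (-p) ^ 2 * X + 2 * (-p * -r) * Z + (-r) ^ 2 * Y = T1 := by rw [hT1]; ring
  rw [e1] at k1 k2
  rw [e3] at k2
  have hsum : T1 + T2 = X + Y := by
    rw [hT1, hT2]
    linear_combination (X + Y) * hpr
  have hprod : T1 * T2 = X * Y - Z ^ 2 := by
    have h5 : T1 * T2 = (X * Y - Z ^ 2) * (p ^ 2 + r ^ 2) ^ 2 +
        (-(p * r) * X + (p ^ 2 - r ^ 2) * Z + p * r * Y) ^ 2 := by
      rw [hT1, hT2]; ring
    rw [h5, hcross, hpr]
    ring
  have hK : 2 * (Real.pi ^ 2 / (4 * a ^ 2)) ^ 2 < Real.pi ^ 2 / (16 * a ^ 2 * b ^ 2) := by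
    have hpi2 : Real.pi ^ 2 < 12.5 := by
      have := Real.pi_lt_d2
      nlinarith
    have h6 : b ^ 2 ≤ a ^ 2 / 25 := by nlinarith
    have h7 : Real.pi ^ 2 / (16 * a ^ 2 * (a ^ 2 / 25)) ≤ Real.pi ^ 2 / (16 * a ^ 2 * b ^ 2) :=
      div_le_div_of_nonneg_left (by positivity) (by positivity)
        (mul_le_mul_of_nonneg_left h6 (by positivity))
    refine lt_of_lt_of_le ?_ h7
    have e5 : 2 * (Real.pi ^ 2 / (4 * a ^ 2)) ^ 2 = 2 * Real.pi ^ 2 * (Real.pi ^ 2 / (16 * a ^ 4)) := by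
      field_simp
      ring
    have e6 : Real.pi ^ 2 / (16 * a ^ 2 * (a ^ 2 / 25)) = 25 * (Real.pi ^ 2 / (16 * a ^ 4)) := by
      field_simp
    rw [e5, e6]
    have : 0 < Real.pi ^ 2 / (16 * a ^ 4) := by positivity
    exact mul_lt_mul_of_pos_right (by linarith) this
  have key := algebra_strict hN (m := Real.pi ^ 2 / (4 * a ^ 2)) (by positivity) hK k1.1 k2.1
    k1.2 k2.2
  rw [hsum, hprod] at key
  have hX0 : 0 ≤ X := integral_nonneg fun x => sq_nonneg _
  have hY0 : 0 ≤ Y := integral_nonneg fun x => sq_nonneg _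
  refine ⟨hN, ?_, key⟩
  rcases hX0.lt_or_eq with h8 | h8
  · exact h8
  · exfalso
    rw [← h8] at key
    have : 0 ≤ Real.pi ^ 2 / (4 * a ^ 2) * N * (0 + Y) := by positivity
    nlinarith [sq_nonneg Z]

end Q73.Za
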