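import Mathlib
import Pool.Agent.Q73.Za.Lim

/-!
# The affine energy in the plane for `p = 2`
-/

set_option autoImplicit false
open MeasureTheory Set Filter Topology Metric

namespace Q73.Za

lemma cnp_two : cnp 2 2 = 2 * √Real.pi := by
  have hpi := Real.pi_pos
  have h2 : omg 2 = Real.pi := by
    unfold omg
    have : (1 + 2 / 2 : ℝ) = 2 := by norm_num
    rw [this, Real.Gamma_two]
    norm_num
  have h1 : omg (2 - 1) = 2 := by
    unfold omg
    have e : (2 - 1 : ℝ) = 1 := by norm_num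
    have e1 : (1 + 1 / 2 : ℝ) = 1 / 2 + 1 := by norm_num
    rw [e, e1, Real.Gamma_add_one (by norm_num), Real.Gamma_one_half_eq, ← Real.sqrt_eq_rpow]
    have : √Real.pi ≠ 0 := (Real.sqrt_pos.2 hpi).ne'
    field_simp
  unfold cnp
  have e2 : (((2 : ℕ) : ℝ) + 2 - 2) = 2 := by norm_num
  rw [e2, h1, Nat.cast_ofNat, h2]
  have e3 : 2 * Real.pi * 2 / (2 * Real.pi) = 2 := by field_simp
  rw [e3, ← Real.sqrt_eq_rpow, ← Real.sqrt_eq_rpow, ← Real.sqrt_mul (by norm_num)]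
  have e4 : 2 * (2 * Real.pi) = 2 ^ 2 * Real.pi := by ring
  rw [e4, Real.sqrt_mul (by positivity), Real.sqrt_sq (by norm_num)]

lemma lpn_scalar (g : E2 → ℝ) : lpn 2 g = √(∫ x, g x ^ 2) := by
  unfold lpn
  rw [Real.sqrt_eq_rpow]
  congr 1
  refine integral_congr_ae (Eventually.of_forall fun x => ?_)
  simp

lemma lpn_vector {G : E2 → E2} (hG : MemLp G 2) : lpn 2 G = √(gX G + gY G) := by
  unfold lpn
  rw [Real.sqrt_eq_rpow]
  congr 1
  have i0 : Integrable (fun x => G x 0 ^ 2) := (memLp_coord hG 0).integrable_sq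
  have i1 : Integrable (fun x => G x 1 ^ 2) := (memLp_coord hG 1).integrable_sq
  unfold gX gY
  rw [← integral_add i0 i1]
  refine integral_congr_ae (Eventually.of_forall fun x => ?_)
  show ‖G x‖ ^ (2 : ℝ) = G x 0 ^ 2 + G x 1 ^ 2
  rw [Real.rpow_two, EuclideanSpace.norm_eq, Real.sq_sqrt (Finset.sum_nonneg fun i _ => by positivity),
    Fin.sum_univ_two]
  simp

lemma energy_two {G : E2 → E2} (hG : MemLp G 2) (hX : 0 < gX G)
    (hD : 0 < gX G * gY G - gZ G ^ 2) :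
    0 ≤ energy (n := 2) 2 G ∧ energy (n := 2) 2 G ^ 4 = 4 * (gX G * gY G - gZ G ^ 2) := by
  have hpi := Real.pi_pos
  set D := gX G * gY G - gZ G ^ 2 with hDd
  have hsD : 0 < √D := Real.sqrt_pos.2 hD
  have h1 : energy (n := 2) 2 G = 2 * √Real.pi * (2 * Real.pi / √D) ^ (-(1 / 2 : ℝ)) := by
    unfold energy
    rw [cnp_two, ← sphere_qf hX hD, Nat.cast_ofNat]
    congr 2
    refine integral_congr_ae (Eventually.of_forall fun ξ => ?_)
    have e1 : (fun x => inner ℝ (G x) (ξ : E2)) = fun x => (ξ : E2) 0 * G x 0 + (ξ : E2) 1 * G x 1 := by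
      funext x
      rw [PiLp.inner_apply, Fin.sum_univ_two]
      simp
    have hq : ∫ x, (inner ℝ (G x) (ξ : E2)) ^ 2 = qf (gX G) (gY G) (gZ G) ξ := by
      have e2 : (fun x => (inner ℝ (G x) (ξ : E2) : ℝ) ^ 2) =
          fun x => ((ξ : E2) 0 * G x 0 + (ξ : E2) 1 * G x 1) ^ 2 := by
        funext x
        rw [congrFun e1 x]
      rw [e2, quad_integral hG]
      unfold qf
      ring
    have hξ : (ξ : E2) ≠ 0 := by
      intro h
      have := ξ.2
      rw [mem_sphere_zero_iff_norm, h, norm_zero] at this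
      norm_num at this
    have hqp := qf_pos hX hD hξ
    show lpn 2 (fun x => inner ℝ (G x) (ξ : E2)) ^ (-(2 : ℝ)) = (qf (gX G) (gY G) (gZ G) ξ)⁻¹
    rw [lpn_scalar, hq, Real.rpow_neg (Real.sqrt_nonneg _), Real.rpow_two, Real.sq_sqrt hqp.le]
  rw [h1]
  have hb : 0 < 2 * Real.pi / √D := by positivity
  refine ⟨by positivity, ?_⟩
  rw [mul_pow, mul_pow, ← Real.rpow_natCast ((2 * Real.pi / √D) ^ (-(1 / 2 : ℝ))), ← Real.rpow_mul hb.le]
  have e3 : (-(1 / 2 : ℝ) * ((4 : ℕ) : ℝ)) = -((2 : ℕ) : ℝ) := by norm_num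
  rw [e3, Real.rpow_neg hb.le, Real.rpow_natCast, div_pow, mul_pow, Real.sq_sqrt hD.le]
  have e4 : √Real.pi ^ 4 = Real.pi ^ 2 := by
    have : √Real.pi ^ 4 = (√Real.pi ^ 2) ^ 2 := by ring
    rw [this, Real.sq_sqrt hpi.le]
  rw [e4]
  field_simp
  ring

/-- the fourth power of the ratio -/
lemma ratio_four {f : E2 → ℝ} {G : E2 → E2} (hG : MemLp G 2) (hX : 0 < gX G)
    (hD : 0 < gX G * gY G - gZ G ^ 2) (hN : 0 < ∫ x, f x ^ 2) :
    0 ≤ ratio (n := 2) 2 f G ∧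
    ratio (n := 2) 2 f G ^ 4 = 4 * (gX G * gY G - gZ G ^ 2) / ((∫ x, f x ^ 2) * (gX G + gY G)) := by
  obtain ⟨h1, h2⟩ := energy_two hG hX hD
  have hY0 : 0 ≤ gY G := integral_nonneg fun x => sq_nonneg _
  have hS : 0 < gX G + gY G := by linarith
  unfold ratio
  rw [lpn_scalar, lpn_vector hG, Nat.cast_ofNat]
  have e1 : ((2 : ℝ) - 1) / 2 = 1 / 2 := by norm_num
  rw [e1, ← Real.sqrt_eq_rpow, ← Real.sqrt_eq_rpow]
  refine ⟨by positivity, ?_⟩
  rw [div_pow, h2, mul_pow]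
  have e2 : ∀ t : ℝ, 0 ≤ t → √(√t) ^ 4 = t := by
    intro t ht
    have : √(√t) ^ 4 = (√(√t) ^ 2) ^ 2 := by ring
    rw [this, Real.sq_sqrt (Real.sqrt_nonneg _), Real.sq_sqrt ht]
  rw [e2 _ hN.le, e2 _ hS.le]

/-- the ratio is larger than `√(π/a)` -/
lemma ratio_gt {a b : ℝ} (ha : 0 < a) (hb : 0 < b) (hab : b ≤ a / 5) {f : E2 → ℝ} {G : E2 → E2}
    (h : W0 2 (ell a b) f G) (hf0 : ¬ (f =ᵐ[volume] 0)) :
    √(Real.pi / a) < ratio (n := 2) 2 f G := by
  have hpi := Real.pi_pos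
  have e2 : ENNReal.ofReal 2 = 2 := by norm_num
  have hG : MemLp G 2 := by
    have := h.2.1
    rwa [e2] at this
  obtain ⟨hN, hX, hs⟩ := strict ha hb hab h hf0
  have hY0 : 0 ≤ gY G := integral_nonneg fun x => sq_nonneg _
  have hS : 0 < gX G + gY G := by linarith
  have hD : 0 < gX G * gY G - gZ G ^ 2 := lt_trans (by positivity) hs
  obtain ⟨h1, h2⟩ := ratio_four (f := f) hG hX hD hN
  refine lt_of_pow_lt_pow_left₀ 4 h1 ?_
  rw [h2, lt_div_iff₀ (by positivity)]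
  have e3 : √(Real.pi / a) ^ 4 = Real.pi ^ 2 / a ^ 2 := by
    have : √(Real.pi / a) ^ 4 = (√(Real.pi / a) ^ 2) ^ 2 := by ring
    rw [this, Real.sq_sqrt (by positivity), div_pow]
  rw [e3]
  calc Real.pi ^ 2 / a ^ 2 * ((∫ x, f x ^ 2) * (gX G + gY G))
      = 4 * (Real.pi ^ 2 / (4 * a ^ 2) * (∫ x, f x ^ 2) * (gX G + gY G)) := by
        field_simp
    _ < _ := by linarith

end Q73.Za
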