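import Mathlib
import Pool.Agent.Q73.Za.En

/-!
# Test functions: the upper bound for the best constant
-/

set_option autoImplicit false
open MeasureTheory Set Filter Topology Metric

namespace Q73.Za

noncomputable def Dd (δ h : ℝ) : ℝ := max 0 (min 1 ((h - δ) / δ))

lemma Dd_cont (δ : ℝ) : Continuous (Dd δ) := by unfold Dd; fun_prop
lemma Dd_nonneg (δ h : ℝ) : 0 ≤ Dd δ h := le_max_left _ _
lemma Dd_le_one (δ h : ℝ) : Dd δ h ≤ 1 := max_le (by norm_num) (min_le_left _ _)

lemma Dd_zero {δ h : ℝ} (hδ : 0 < δ) (h1 : h ≤ δ) : Dd δ h = 0 := by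
  unfold Dd
  refine max_eq_left ((min_le_right _ _).trans ?_)
  exact div_nonpos_of_nonpos_of_nonneg (by linarith) hδ.le

lemma Dd_one {δ h : ℝ} (hδ : 0 < δ) (h1 : 2 * δ ≤ h) : Dd δ h = 1 := by
  unfold Dd
  have : 1 ≤ (h - δ) / δ := by rw [le_div_iff₀ hδ]; linarith
  rw [min_eq_left this]
  exact max_eq_right (by norm_num)

noncomputable def psi (δ h : ℝ) : ℝ := ∫ t in δ..h, Dd δ t

lemma psi_deriv (δ h : ℝ) : HasDerivAt (psi δ) (Dd δ h) h :=
  ((Dd_cont δ).integral_hasStrictDerivAt δ h).hasDerivAt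

lemma psi_contDiff (δ : ℝ) : ContDiff ℝ 1 (psi δ) := by
  rw [contDiff_one_iff_deriv]
  refine ⟨fun h => (psi_deriv δ h).differentiableAt, ?_⟩
  have e : deriv (psi δ) = Dd δ := funext fun h => (psi_deriv δ h).deriv
  rw [e]
  exact Dd_cont δ

lemma psi_zero {δ h : ℝ} (hδ : 0 < δ) (h1 : h ≤ δ) : psi δ h = 0 := by
  unfold psi
  rw [intervalIntegral.integral_congr (g := fun _ => (0 : ℝ))]
  · simp
  · intro t ht
    rw [uIcc_of_ge h1] at ht
    exact Dd_zero hδ ht.2

lemma psi_lower {δ h : ℝ} (hδ : 0 < δ) (h1 : 2 * δ ≤ h) : h - 2 * δ ≤ psi δ h := by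
  unfold psi
  rw [← intervalIntegral.integral_add_adjacent_intervals
    ((Dd_cont δ).intervalIntegrable δ (2 * δ)) ((Dd_cont δ).intervalIntegrable (2 * δ) h)]
  have e1 : 0 ≤ ∫ t in δ..(2 * δ), Dd δ t :=
    intervalIntegral.integral_nonneg (by linarith) fun t _ => Dd_nonneg _ _
  have e2 : ∫ t in (2 * δ)..h, Dd δ t = h - 2 * δ := by
    rw [intervalIntegral.integral_congr (g := fun _ => (1 : ℝ))]
    · simp
    · intro t ht
      rw [uIcc_of_le h1] at ht
      exact Dd_one hδ ht.1
  linarith

lemma psi_sq {δ h : ℝ} (hδ : 0 < δ) (h0 : 0 ≤ h) (h1 : h ≤ 1) : h ^ 2 - 4 * δ ≤ psi δ h ^ 2 := by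
  by_cases hc : 2 * δ ≤ h
  · have := psi_lower hδ hc
    nlinarith
  · push Not at hc
    nlinarith [sq_nonneg (psi δ h)]

lemma int_sin_sq {a : ℝ} (ha : 0 < a) :
    ∫ y in (-a)..a, Real.sin (Real.pi / (2 * a) * y) ^ 2 = a := by
  have hpi := Real.pi_pos
  have hk : Real.pi / (2 * a) ≠ 0 := by positivity
  rw [intervalIntegral.integral_comp_mul_left (fun y => Real.sin y ^ 2) hk, integral_sin_sq]
  have e1 : Real.pi / (2 * a) * a = Real.pi / 2 := by field_simp
  have e2 : Real.pi / (2 * a) * (-a) = -(Real.pi / 2) := by field_simp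
  rw [e1, e2]
  simp
  field_simp
  try ring

lemma int_cos_sq {a : ℝ} (ha : 0 < a) :
    ∫ y in (-a)..a, Real.cos (Real.pi / (2 * a) * y) ^ 2 = a := by
  have hpi := Real.pi_pos
  have hk : Real.pi / (2 * a) ≠ 0 := by positivity
  rw [intervalIntegral.integral_comp_mul_left (fun y => Real.cos y ^ 2) hk, integral_cos_sq]
  have e1 : Real.pi / (2 * a) * a = Real.pi / 2 := by field_simp
  have e2 : Real.pi / (2 * a) * (-a) = -(Real.pi / 2) := by field_simp
  rw [e1, e2]
  simp
  field_simp
  try ring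

/-- almost optimal functions for the one-dimensional Rayleigh quotient -/
lemma oneD {a ε : ℝ} (ha : 0 < a) (hε : 0 < ε) : ∃ (g : ℝ → ℝ) (a1 : ℝ), 0 < a1 ∧ a1 < a ∧
    ContDiff ℝ 1 g ∧ (∀ y, a1 < |y| → g y = 0) ∧ 0 < ∫ y, g y ^ 2 ∧
    ∫ y, deriv g y ^ 2 ≤ (Real.pi ^ 2 / (4 * a ^ 2) + ε) * ∫ y, g y ^ 2 := by
  have hpi := Real.pi_pos
  set k := Real.pi / (2 * a) with hk
  have hk0 : 0 < k := by positivity
  have hk2 : Real.pi ^ 2 / (4 * a ^ 2) = k ^ 2 := by rw [hk, div_pow]; ring
  rw [hk2]
  have hka : k * a = Real.pi / 2 := by rw [hk]; field_simp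
  set δ := min (1 / 16) (ε / (8 * (k ^ 2 + ε))) with hδd
  have hδ : 0 < δ := lt_min (by norm_num) (by positivity)
  have hδ1 : δ ≤ 1 / 16 := min_le_left _ _
  have hδ2 : 8 * δ * (k ^ 2 + ε) ≤ ε := by
    have h := min_le_right (1 / 16) (ε / (8 * (k ^ 2 + ε)))
    rw [← hδd, le_div_iff₀ (by positivity)] at h
    linarith
  set c : ContDiffBump (0 : ℝ) := ⟨a, 2 * a, ha, by linarith⟩ with hc
  set g : ℝ → ℝ := fun y => psi δ (Real.cos (k * y)) * c y with hg
  set a1 := Real.arccos δ / k with ha1
  have harc : 0 < Real.arccos δ := Real.arccos_pos.2 (by linarith)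
  have harc2 : Real.arccos δ < Real.pi / 2 := Real.arccos_lt_pi_div_two.2 hδ
  have ha1p : 0 < a1 := by positivity
  have ha1a : a1 < a := by
    rw [ha1, div_lt_iff₀ hk0, mul_comm, hka]
    exact harc2
  have hgC : ContDiff ℝ 1 g := by
    refine ((psi_contDiff δ).comp ?_).mul c.contDiff
    exact Real.contDiff_cos.comp (contDiff_const.mul contDiff_id)
  have hg0 : ∀ y, a1 < |y| → g y = 0 := by
    intro y hy
    by_cases hy2 : |y| < 2 * a
    · have h1 : Real.cos (k * y) < δ := by
        rw [← Real.cos_abs, abs_mul, abs_of_pos hk0]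
        have h2 : Real.arccos δ < k * |y| := by
          rw [ha1, div_lt_iff₀ hk0] at hy
          linarith
        have h3 : k * |y| ≤ Real.pi := by
          have : k * |y| ≤ k * (2 * a) := mul_le_mul_of_nonneg_left hy2.le hk0.le
          nlinarith
        have h4 := Real.cos_lt_cos_of_nonneg_of_le_pi harc.le h3 h2
        rwa [Real.cos_arccos (by linarith) (by linarith)] at h4
      rw [hg]
      simp only
      rw [psi_zero hδ h1.le, zero_mul]
    · push Not at hy2
      have : c y = 0 := by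
        apply c.zero_of_le_dist
        rw [Real.dist_eq, sub_zero]
        exact hy2
      rw [hg]
      simp only
      rw [this, mul_zero]
  have hgc : HasCompactSupport g := by
    refine HasCompactSupport.of_support_subset_isCompact (isCompact_Icc (a := -a1) (b := a1)) ?_
    intro y hy
    by_contra hcon
    apply hy
    apply hg0
    by_contra h5
    push Not at h5
    exact hcon (abs_le.1 h5)
  have hcos0 : ∀ y ∈ Icc (-a) a, 0 ≤ Real.cos (k * y) := by
    intro y hy
    apply Real.cos_nonneg_of_mem_Icc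
    constructor
    · have : k * (-a) ≤ k * y := mul_le_mul_of_nonneg_left hy.1 hk0.le
      linarith
    · have : k * y ≤ k * a := mul_le_mul_of_nonneg_left hy.2 hk0.le
      linarith
  have hc1 : ∀ y ∈ Icc (-a) a, c y = 1 := by
    intro y hy
    apply c.one_of_mem_closedBall
    rw [mem_closedBall_zero_iff, Real.norm_eq_abs]
    exact abs_le.2 hy
  -- lower bound of the mass
  have hgi : Integrable (fun y => g y ^ 2) := by
    refine (hgC.continuous.pow 2).integrable_of_hasCompactSupport (hgc.mono ?_)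
    intro x hx
    simp only [Function.mem_support, ne_eq] at hx ⊢
    intro h0
    exact hx (by show g x ^ 2 = 0; rw [h0]; ring)
  have hlow : a * (1 - 8 * δ) ≤ ∫ y, g y ^ 2 := by
    have h1 : ∫ y in Icc (-a) a, g y ^ 2 ≤ ∫ y, g y ^ 2 :=
      setIntegral_le_integral hgi (Eventually.of_forall fun y => sq_nonneg _)
    refine le_trans ?_ h1
    rw [integral_Icc_eq_integral_Ioc, ← intervalIntegral.integral_of_le (by linarith)]
    have h2 : ∫ y in (-a)..a, (Real.cos (k * y) ^ 2 - 4 * δ) ≤ ∫ y in (-a)..a, g y ^ 2 := by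
      refine intervalIntegral.integral_mono_on (by linarith) ?_ ?_ ?_
      · exact (by fun_prop : Continuous fun y => Real.cos (k * y) ^ 2 - 4 * δ).intervalIntegrable _ _
      · exact (hgC.continuous.pow 2).intervalIntegrable _ _
      · intro y hy
        have h3 := psi_sq hδ (hcos0 y hy) (Real.cos_le_one _)
        have h4 : g y = psi δ (Real.cos (k * y)) := by
          rw [hg]
          simp only
          rw [hc1 y hy, mul_one]
        rw [h4]
        exact h3
    refine le_trans (le_of_eq ?_) h2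
    rw [intervalIntegral.integral_sub ((by fun_prop : Continuous fun y =>
      Real.cos (k * y) ^ 2).intervalIntegrable _ _) (continuous_const.intervalIntegrable _ _),
      int_cos_sq ha, intervalIntegral.integral_const]
    simp
    ring
  -- upper bound of the energy
  have hup : ∫ y, deriv g y ^ 2 ≤ k ^ 2 * a := by
    have hpt : ∀ y, deriv g y ^ 2 ≤ (Icc (-a) a).indicator
        (fun y => k ^ 2 * Real.sin (k * y) ^ 2) y := by
      intro y
      by_cases hy : |y| < a
      · have hyI : y ∈ Icc (-a) a := abs_le.1 hy.le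
        rw [indicator_of_mem hyI]
        have hev : g =ᶠ[𝓝 y] fun y => psi δ (Real.cos (k * y)) := by
          have ho : IsOpen {y : ℝ | |y| < a} := isOpen_lt continuous_abs continuous_const
          filter_upwards [ho.mem_nhds hy] with z hz
          rw [hg]
          simp only
          rw [hc1 z (abs_le.1 (le_of_lt hz)), mul_one]
        rw [hev.deriv_eq]
        have h1 : HasDerivAt (fun y : ℝ => Real.cos (k * y)) (-Real.sin (k * y) * k) y := by
          have h0 : HasDerivAt (fun y : ℝ => k * y) k y := by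
            simpa using (hasDerivAt_id y).const_mul k
          exact h0.cos
        have h2 : HasDerivAt (fun y => psi δ (Real.cos (k * y)))
            (Dd δ (Real.cos (k * y)) * (-Real.sin (k * y) * k)) y :=
          HasDerivAt.comp (h₂ := psi δ) y (psi_deriv δ (Real.cos (k * y))) h1
        rw [h2.deriv]
        have h3 := Dd_nonneg δ (Real.cos (k * y))
        have h4 := Dd_le_one δ (Real.cos (k * y))
        have h5 : Dd δ (Real.cos (k * y)) ^ 2 ≤ 1 := by nlinarith
        have e : (Dd δ (Real.cos (k * y)) * (-Real.sin (k * y) * k)) ^ 2 =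
            Dd δ (Real.cos (k * y)) ^ 2 * (k ^ 2 * Real.sin (k * y) ^ 2) := by ring
        rw [e]
        calc Dd δ (Real.cos (k * y)) ^ 2 * (k ^ 2 * Real.sin (k * y) ^ 2)
            ≤ 1 * (k ^ 2 * Real.sin (k * y) ^ 2) :=
              mul_le_mul_of_nonneg_right h5 (by positivity)
          _ = _ := one_mul _
      · push Not at hy
        have hev : g =ᶠ[𝓝 y] fun _ => 0 := by
          have ho : IsOpen {y : ℝ | a1 < |y|} := isOpen_lt continuous_const continuous_abs
          have hy' : y ∈ {y : ℝ | a1 < |y|} := lt_of_lt_of_le ha1a hy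
          filter_upwards [ho.mem_nhds hy'] with z hz
          exact hg0 z hz
        rw [hev.deriv_eq, deriv_const]
        have : (0 : ℝ) ^ 2 = 0 := by norm_num
        rw [this]
        exact indicator_nonneg (fun y _ => by positivity) y
    have hdi : Integrable (fun y => deriv g y ^ 2) := by
      refine ((hgC.continuous_deriv le_rfl).pow 2).integrable_of_hasCompactSupport
        (hgc.deriv.mono ?_)
      intro x hx
      simp only [Function.mem_support, ne_eq] at hx ⊢
      intro h0
      exact hx (by show deriv g x ^ 2 = 0; rw [h0]; ring)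
    have hci : IntegrableOn (fun y => k ^ 2 * Real.sin (k * y) ^ 2) (Icc (-a) a) :=
      (by fun_prop : Continuous fun y => k ^ 2 * Real.sin (k * y) ^ 2).integrableOn_Icc
    have s1 : (∫ y, deriv g y ^ 2) ≤ ∫ y, (Icc (-a) a).indicator
        (fun y => k ^ 2 * Real.sin (k * y) ^ 2) y :=
      integral_mono hdi (hci.integrable_indicator measurableSet_Icc) hpt
    refine s1.trans (le_of_eq ?_)
    rw [integral_indicator measurableSet_Icc, integral_Icc_eq_integral_Ioc,
      ← intervalIntegral.integral_of_le (by linarith),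
      intervalIntegral.integral_const_mul, int_sin_sq ha]
  refine ⟨g, a1, ha1p, ha1a, hgC, hg0, ?_, ?_⟩
  · refine lt_of_lt_of_le ?_ hlow
    have : 0 < 1 - 8 * δ := by linarith
    positivity
  · refine hup.trans ?_
    calc k ^ 2 * a ≤ (k ^ 2 + ε) * (a * (1 - 8 * δ)) := by
          have : 0 ≤ a * (ε - 8 * δ * (k ^ 2 + ε)) := mul_nonneg ha.le (by linarith)
          nlinarith
      _ ≤ _ := mul_le_mul_of_nonneg_left hlow (by positivity)

/-- integration of a product over the plane -/
lemma integral_prod_plane (F H : ℝ → ℝ) :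
    ∫ x : E2, F (x 0) * H (x 1) = (∫ t, F t) * ∫ t, H t := by
  have h1 := (EuclideanSpace.volume_preserving_symm_measurableEquiv_toLp (Fin 2)).integral_comp
    (MeasurableEquiv.measurableEmbedding _) (fun y : Fin 2 → ℝ => F (y 0) * H (y 1))
  have h2 := integral_fintype_prod_volume_eq_prod (ι := Fin 2) (E := fun _ => ℝ) (𝕜 := ℝ)
    (fun i => ![F, H] i)
  simp only [Fin.prod_univ_two, Matrix.cons_val_zero, Matrix.cons_val_one] at h2
  rw [← h2, ← h1]
  rfl

/-- **test functions in the ellipse**: the ratio is almost at most `√(π/a)` -/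
lemma exists_test {a b ε : ℝ} (ha : 0 < a) (hb : 0 < b) (hε : 0 < ε) :
    ∃ f : E2 → ℝ, Adm (ell a b) f ∧ f ≠ 0 ∧ 0 < ∫ x, f x ^ 2 ∧
      gY (gradient f) ≤ (Real.pi ^ 2 / (4 * a ^ 2) + ε) * ∫ x, f x ^ 2 := by
  obtain ⟨g, a1, h1, h2, hg, hg0, hgp, hgr⟩ := oneD ha hε
  have hlt : 0 < 1 - (a1 / a) ^ 2 := by
    have : (a1 / a) ^ 2 < 1 := by
      rw [div_pow, div_lt_one (by positivity)]
      nlinarith
    linarith
  set r := b * √(1 - (a1 / a) ^ 2) / 2 with hr
  have hs := Real.sqrt_pos.2 hlt
  have hr0 : 0 < r := by positivity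
  set c : ContDiffBump (0 : ℝ) := ⟨r / 2, r, by positivity, by linarith⟩ with hc
  set f : E2 → ℝ := fun x => c (x 0) * g (x 1) with hf
  have hcd : ContDiff ℝ 1 (fun t : ℝ => c t) := c.contDiff
  have hfC : ContDiff ℝ 1 f :=
    (hcd.comp (by fun_prop : ContDiff ℝ 1 fun x : E2 => x 0)).mul
      (hg.comp (by fun_prop : ContDiff ℝ 1 fun x : E2 => x 1))
  have hc0 : ∀ t, r < |t| → c t = 0 := by
    intro t ht
    apply c.zero_of_le_dist
    rw [Real.dist_eq, sub_zero]
    exact ht.le
  have hsupp : tsupport f ⊆ ell a b := by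
    have hc1 : IsClosed {x : E2 | |x 0| ≤ r} := isClosed_le (by fun_prop) continuous_const
    have hc2 : IsClosed {x : E2 | |x 1| ≤ a1} := isClosed_le (by fun_prop) continuous_const
    have hcl : IsClosed {x : E2 | |x 0| ≤ r ∧ |x 1| ≤ a1} := hc1.inter hc2
    have hsub : tsupport f ⊆ {x : E2 | |x 0| ≤ r ∧ |x 1| ≤ a1} := by
      refine closure_minimal ?_ hcl
      intro x hx
      constructor
      · by_contra hcon
        push Not at hcon
        exact hx (by rw [hf]; simp only; rw [hc0 _ hcon, zero_mul])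
      · by_contra hcon
        push Not at hcon
        exact hx (by rw [hf]; simp only; rw [hg0 _ hcon, mul_zero])
    intro x hx
    obtain ⟨h3, h4⟩ := hsub hx
    show (x 0 / b) ^ 2 + (x 1 / a) ^ 2 < 1
    have h5 : (x 0 / b) ^ 2 ≤ (1 - (a1 / a) ^ 2) / 4 := by
      have h6 : x 0 ^ 2 ≤ r ^ 2 := sq_le_sq' (by linarith [(abs_le.1 h3).1]) (abs_le.1 h3).2
      rw [div_pow, div_le_iff₀ (by positivity)]
      refine h6.trans (le_of_eq ?_)
      rw [hr, div_pow, mul_pow, Real.sq_sqrt hlt.le]
      ring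
    have h7 : (x 1 / a) ^ 2 ≤ (a1 / a) ^ 2 := by
      rw [div_pow, div_pow]
      have : x 1 ^ 2 ≤ a1 ^ 2 := sq_le_sq' (by linarith [(abs_le.1 h4).1]) (abs_le.1 h4).2
      exact div_le_div_of_nonneg_right this (by positivity)
    linarith
  have hcp : 0 < ∫ t, c t ^ 2 := by
    have hcont : Continuous (fun t : ℝ => c t ^ 2) := c.continuous.pow 2
    have hcs : HasCompactSupport (fun t : ℝ => c t ^ 2) := c.hasCompactSupport.mono (by
      intro x hx
      simp only [Function.mem_support, ne_eq] at hx ⊢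
      intro h0
      exact hx (by rw [h0]; ring))
    refine hcont.integral_pos_of_hasCompactSupport_nonneg_nonzero hcs (fun t => sq_nonneg _)
      (x := 0) ?_
    have : c 0 = 1 := c.one_of_mem_closedBall (by simp [c.rIn_pos.le])
    rw [this]
    norm_num
  have hN : ∫ x, f x ^ 2 = (∫ t, c t ^ 2) * ∫ t, g t ^ 2 := by
    rw [← integral_prod_plane (fun t => c t ^ 2) (fun t => g t ^ 2)]
    refine integral_congr_ae (Eventually.of_forall fun x => ?_)
    show (c (x 0) * g (x 1)) ^ 2 = _
    ring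
  have hN0 : 0 < ∫ x, f x ^ 2 := by rw [hN]; positivity
  have hY : gY (gradient f) = (∫ t, c t ^ 2) * ∫ t, deriv g t ^ 2 := by
    unfold gY
    rw [← integral_prod_plane (fun t => c t ^ 2) (fun t => deriv g t ^ 2)]
    refine integral_congr_ae (Eventually.of_forall fun x => ?_)
    have h3 : gradient f x 1 = fderiv ℝ f x (EuclideanSpace.single 1 (1 : ℝ)) := by
      rw [← inner_grad, EuclideanSpace.inner_single_right]
      simp
    have h4 : fderiv ℝ f x (EuclideanSpace.single 1 (1 : ℝ)) = c (x 0) * deriv g (x 1) := by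
      have hd : DifferentiableAt ℝ f x := (hfC.differentiable one_ne_zero) x
      rw [← hd.lineDeriv_eq_fderiv]
      unfold lineDeriv
      have e : (fun t : ℝ => f (x + t • EuclideanSpace.single 1 (1 : ℝ))) =
          fun t : ℝ => c (x 0) * g (x 1 + t) := by
        funext t
        rw [hf]
        simp
      rw [e]
      have h5 : HasDerivAt (fun t : ℝ => g (x 1 + t)) (deriv g (x 1)) 0 := by
        have h6 : HasDerivAt g (deriv g (x 1 + 0)) (x 1 + 0) :=
          ((hg.differentiable one_ne_zero) _).hasDerivAt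
        rw [add_zero] at h6
        have h7 : HasDerivAt g (deriv g (x 1)) (x 1 + 0) := by rw [add_zero]; exact h6
        have h8 := HasDerivAt.comp_const_add (x 1) 0 h7
        exact h8
      exact (h5.const_mul (c (x 0))).deriv
    show gradient f x 1 ^ 2 = _
    rw [h3, h4]
    ring
  refine ⟨f, ⟨hfC, hsupp⟩, ?_, hN0, ?_⟩
  · intro h0
    rw [h0] at hN0
    simp at hN0
  · rw [hY, hN]
    calc (∫ t, c t ^ 2) * ∫ t, deriv g t ^ 2
        ≤ (∫ t, c t ^ 2) * ((Real.pi ^ 2 / (4 * a ^ 2) + ε) * ∫ t, g t ^ 2) :=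
          mul_le_mul_of_nonneg_left hgr hcp.le
      _ = _ := by ring

end Q73.Za
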